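import Pool.Agent.H625.FMA.Forced

/-!
# The size of the iteration, and the size of the continuum of the extension
-/

set_option autoImplicit false

namespace Pool.Agent.H625.FMA

open Classical Cardinal Pool.Agent.Helper669.Forcing
open Pool.Agent.W684.FM (Code Cond fib mem_fib Valid PCCC)

attribute [-instance] LinearOrder.toDecidableEq

/-! ### The number of conditions -/

section Size

variable {W : Type} [LinearOrder W] [WellFoundedLT W]

theorem mk_finset_lt {X : Type} {κ : Cardinal.{0}} (hκ : ℵ₀ < κ) (h : #X < κ) :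
    #(Finset X) < κ := by
  rcases finite_or_infinite X with hfin | hinf
  · exact (Cardinal.lt_aleph0_of_finite _).trans hκ
  · rwa [Cardinal.mk_finset_of_infinite]

theorem mk_finset_le {X : Type} {κ : Cardinal.{0}} (hκ : ℵ₀ ≤ κ) (h : #X ≤ κ) :
    #(Finset X) ≤ κ := by
  rcases finite_or_infinite X with hfin | hinf
  · exact (Cardinal.lt_aleph0_of_finite _).le.trans hκ
  · rwa [Cardinal.mk_finset_of_infinite]

theorem mk_prod_lt {X Y : Type} {κ : Cardinal.{0}} (hκ : ℵ₀ ≤ κ) (h : #X < κ) (h' : #Y < κ) :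
    #(X × Y) < κ := by
  have h0 : #(X × Y) = #X * #Y := by simp
  rw [h0]
  exact mul_lt_of_lt hκ h h'

/-- the elements of a valid condition are pairs of a coordinate and a smaller element -/
theorem valid_small {α : W} {s : Cond W W} (hs : Valid (Slt α) s) {a : Code W W × W}
    (ha : a ∈ s) : a.1 ∈ Slt α ∧ a.2 < α := by
  obtain ⟨h1, t, ht, _⟩ := hs a ha
  refine ⟨h1, ?_⟩
  have h2 := V_adm (mem_Slt.1 h1).2
  exact (h2.small _ t ht a.2 (mem_fib.2 ha)).trans (mem_Slt.1 h1).1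

/-- unions of few small sets are small -/
def RegLike (κ : Cardinal.{0}) : Prop :=
  ∀ (ι Z : Type) (X : ι → Set Z), #ι < κ → (∀ i, #(X i) < κ) → #(⋃ i, X i) < κ

theorem mk_V_lt (hreg : RegLike #W) (hlim : ∀ μ < #W, (2 : Cardinal.{0}) ^ μ < #W)
    (hW' : ℵ₀ < #W) (hIio : ∀ α : W, #(Set.Iio α) < #W) (α : W) :
    #(V α) < #W := by
  induction α using WellFoundedLT.induction with
  | ind α ih =>
    have hS : #(Slt α) < #W := by
      unfold Slt
      refine hreg _ _ _ (hIio α) ?_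
      rintro ⟨β, hβ⟩
      exact ih β hβ
    let C : Type := {s : Cond W W // Valid (Slt α) s}
    have hC : #C < #W := by
      have h1 : #(Finset (Slt α × Set.Iio α)) < #W :=
        mk_finset_lt hW' (mk_prod_lt hW'.le hS (hIio α))
      refine lt_of_le_of_lt ?_ h1
      let g : C → Finset (Slt α × Set.Iio α) := fun s =>
        s.1.attach.image fun a => (⟨a.1.1, (valid_small s.2 a.2).1⟩, ⟨a.1.2, (valid_small s.2 a.2).2⟩)
      refine mk_le_of_injective (f := g) ?_
      intro s t hst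
      have key : ∀ (s : C) (a : Code W W × W), a ∈ s.1 ↔ ∃ b ∈ g s, (b.1.1, b.2.1) = a := by
        intro s a
        constructor
        · intro ha
          exact ⟨_, Finset.mem_image.2 ⟨⟨a, ha⟩, Finset.mem_attach _ _, rfl⟩, rfl⟩
        · rintro ⟨b, hb, rfl⟩
          obtain ⟨c, _, rfl⟩ := Finset.mem_image.1 hb
          exact c.2
      apply Subtype.ext
      ext a
      rw [key s, key t, hst]
    let Φ : V α → Set (Finset (Set.Iio α) × C) := fun c =>
      {x | x.2.1 ∈ c.1.nm (x.1.image Subtype.val)}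
    have hΦ : Function.Injective Φ := by
      intro c c' hcc
      have key : ∀ (c c' : V α), Φ c = Φ c' → ∀ G s, s ∈ c.1.nm G → s ∈ c'.1.nm G := by
        intro c c' h G s hs
        have h1 := V_adm c.2
        have h2 : ∀ x ∈ G, x < α := h1.small G s hs
        let F : Finset (Set.Iio α) := G.attach.image fun x => ⟨x.1, h2 x.1 x.2⟩
        have hF : F.image Subtype.val = G := by
          ext x
          constructor
          · intro hx
            obtain ⟨y, hy, rfl⟩ := Finset.mem_image.1 hx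
            obtain ⟨z, _, rfl⟩ := Finset.mem_image.1 hy
            exact z.2
          · intro hx
            exact Finset.mem_image.2 ⟨⟨x, h2 x hx⟩, Finset.mem_image.2
              ⟨⟨x, hx⟩, Finset.mem_attach _ _, rfl⟩, rfl⟩
        have h3 : (F, (⟨s, h1.valid G s hs⟩ : C)) ∈ Φ c := by
          show s ∈ c.1.nm (F.image Subtype.val)
          rw [hF]
          exact hs
        rw [h] at h3
        have h4 : s ∈ c'.1.nm (F.image Subtype.val) := h3
        rwa [hF] at h4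
      have h5 : c.1.nm = c'.1.nm := by
        funext G
        ext s
        exact ⟨key c c' hcc G s, key c' c hcc.symm G s⟩
      apply Subtype.ext
      rw [(V_adm c.2).canon, (V_adm c'.2).canon, h5]
    refine (mk_le_of_injective hΦ).trans_lt ?_
    rw [mk_set]
    exact hlim _ (mk_prod_lt hW'.le (mk_finset_lt hW' (hIio α)) hC)

theorem mk_PP_le (hreg : RegLike #W) (hlim : ∀ μ < #W, (2 : Cardinal.{0}) ^ μ < #W)
    (hW' : ℵ₀ < #W) (hIio : ∀ α : W, #(Set.Iio α) < #W) : #(PP W) ≤ #W := by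
  have h1 : #(Sall W) ≤ #W := by
    unfold Sall
    refine (mk_iUnion_le _).trans ?_
    calc #W * _ ≤ #W * #W := by
          apply mul_le_mul' le_rfl
          apply ciSup_le'
          intro α
          exact (mk_V_lt hreg hlim hW' hIio α).le
      _ = #W := mul_eq_self hW'.le
  have h2 : #(Finset (Sall W × W)) ≤ #W := by
    apply mk_finset_le hW'.le
    have h0 : #(Sall W × W) = #(Sall W) * #W := by simp
    rw [h0]
    exact (mul_le_mul' h1 le_rfl).trans (mul_eq_self hW'.le).le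
  refine le_trans ?_ h2
  let g : PP W → Finset (Sall W × W) := fun s =>
    s.1.attach.image fun a => (⟨a.1.1, (s.2 a.1 a.2).1⟩, a.1.2)
  refine mk_le_of_injective (f := g) ?_
  intro s t hst
  have key : ∀ (s : PP W) (a : Code W W × W), a ∈ s.1 ↔ ∃ b ∈ g s, (b.1.1, b.2) = a := by
    intro s a
    constructor
    · intro ha
      exact ⟨_, Finset.mem_image.2 ⟨⟨a, ha⟩, Finset.mem_attach _ _, rfl⟩, rfl⟩
    · rintro ⟨b, hb, rfl⟩
      obtain ⟨c, _, rfl⟩ := Finset.mem_image.1 hb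
      exact c.2
  apply Subtype.ext
  ext a
  rw [key s, key t, hst]

end Size

/-! ### The number of names for reals -/

section Continuum

variable {P : Type} [Preorder P]

/-- a countable name -/
def nm (c : ℕ → ℕ → Option (P × ℕ)) (n m : ℕ) : Set P :=
  {q | ∃ j, c n j = some (q, m)}

theorem exists_antichain (hP : PCCC P) {D : Set P} (hD : ∀ p, ∃ q ≤ p, q ∈ D) :
    ∃ A ⊆ D, A.Countable ∧ (∀ p, ∃ a ∈ A, ∃ r, r ≤ a ∧ r ≤ p) ∧
      ∀ a ∈ A, ∀ b ∈ A, (∃ r, r ≤ a ∧ r ≤ b) → a = b := by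
  have : ∃ A, Maximal (fun A : Set P => A ⊆ D ∧
      ∀ p ∈ A, ∀ q ∈ A, p ≠ q → ¬ ∃ r, r ≤ p ∧ r ≤ q) A := by
    apply zorn_subset {A : Set P | A ⊆ D ∧ ∀ p ∈ A, ∀ q ∈ A, p ≠ q → ¬ ∃ r, r ≤ p ∧ r ≤ q}
    intro c hc hchain
    refine ⟨⋃₀ c, ⟨Set.sUnion_subset fun A hA => (hc hA).1, ?_⟩,
      fun s hs => Set.subset_sUnion_of_mem hs⟩
    rintro p ⟨A, hA, hpA⟩ q ⟨B, hB, hqB⟩ hne
    rcases hchain.total hA hB with h | h
    · exact (hc hB).2 p (h hpA) q hqB hne
    · exact (hc hA).2 p hpA q (h hqB) hne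
  obtain ⟨A, ⟨h1, h2⟩, hmax⟩ := this
  refine ⟨A, h1, hP A h2, fun p => ?_, fun a ha b hb h => ?_⟩
  · obtain ⟨q, hq, hqD⟩ := hD p
    by_contra hcon
    push Not at hcon
    have hqA : q ∉ A := fun h => hcon q h q le_rfl hq
    apply hqA
    refine hmax (y := insert q A) ⟨Set.insert_subset hqD h1, ?_⟩ (Set.subset_insert q A)
      (Set.mem_insert q A)
    rintro x (rfl | hx) y (rfl | hy) hne
    · exact absurd rfl hne
    · rintro ⟨r, hr1, hr2⟩
      exact hcon y hy r hr2 (hr1.trans hq)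
    · rintro ⟨r, hr1, hr2⟩
      exact hcon x hx r hr1 (hr2.trans hq)
    · exact h2 x hx y hy hne
  · by_contra hne
    exact h2 a ha b hb hne h

theorem sameReal_spec {x y : ℕ → ℕ → Set P} {q : P} (h : q ∈ SameReal x y)
    (r : P) (hr : r ≤ q) (n a b : ℕ) (ha : r ∈ meets (x n a)) (hb : r ∈ meets (y n b)) :
    a = b :=
  SameReal.eq (down_SameReal x y q h r hr) ha hb

theorem exists_nm [Nonempty P] (hP : PCCC P) (x : ℕ → ℕ → Set P) :
    ∃ c, (∀ p, p ∈ IsFun (nm c)) ∧ ∀ p ∈ IsFun x, p ∈ SameReal x (nm c) := by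
  have hD : ∀ n, ∃ A ⊆ {q : P | (∃ m, q ∈ meets (x n m) ∧ q ∈ IsFun x) ∨
      q ∈ fnot (IsFun x)}, A.Countable ∧ (∀ p, ∃ a ∈ A, ∃ r, r ≤ a ∧ r ≤ p) ∧
      ∀ a ∈ A, ∀ b ∈ A, (∃ r, r ≤ a ∧ r ≤ b) → a = b := by
    intro n
    apply exists_antichain hP
    intro q
    by_cases hq : q ∈ fnot (IsFun x)
    · exact ⟨q, le_rfl, Or.inr hq⟩
    · simp only [fnot, Set.mem_ofPred_eq, not_forall, not_not] at hq
      obtain ⟨q', hq', hfun⟩ := hq
      obtain ⟨q'', hq'', m, hm⟩ := IsFun.total hfun n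
      exact ⟨q'', hq''.trans hq', Or.inl ⟨m, hm, down_IsFun x _ hfun _ hq''⟩⟩
  choose A hAD hAc hApre hAanti using hD
  have hval : ∀ n, ∀ a : P, ∃ m, a ∈ A n → (a ∈ meets (x n m) ∨ a ∈ fnot (IsFun x)) := by
    intro n a
    by_cases ha : a ∈ A n
    · rcases hAD n ha with ⟨m, h1, _⟩ | h
      · exact ⟨m, fun _ => Or.inl h1⟩
      · exact ⟨0, fun _ => Or.inr h⟩
    · exact ⟨0, fun h => absurd h ha⟩
  choose v hv using hval
  have hcode : ∀ n, ∃ g : ℕ → Option (P × ℕ), ∀ q m, (∃ j, g j = some (q, m)) ↔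
      (q ∈ A n ∧ v n q = m) := by
    intro n
    obtain ⟨a₀, ha₀, _⟩ := hApre n (Classical.arbitrary _)
    have : Nonempty (A n) := ⟨⟨a₀, ha₀⟩⟩
    have hc : Countable (A n) := hAc n
    obtain ⟨g, hg⟩ := exists_surjective_nat (A n)
    refine ⟨fun j => some ((g j).1, v n (g j).1), fun q m => ?_⟩
    constructor
    · rintro ⟨j, hj⟩
      simp only [Option.some.injEq, Prod.mk.injEq] at hj
      obtain ⟨rfl, rfl⟩ := hj
      exact ⟨(g j).2, rfl⟩
    · rintro ⟨hq, rfl⟩
      obtain ⟨j, hj⟩ := hg ⟨q, hq⟩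
      exact ⟨j, by simp [hj]⟩
  choose c hc using hcode
  have hmem : ∀ n m q, q ∈ nm c n m ↔ (q ∈ A n ∧ v n q = m) := fun n m q => hc n q m
  refine ⟨c, fun p => ⟨fun n => mem_fex.2 fun q _ => ?_, fun n m m' => mem_fimp.2 fun q _ h => ?_⟩,
    fun p hp n a b => mem_fimp.2 fun q hq h => ?_⟩
  · obtain ⟨a, ha, s, hs1, hs2⟩ := hApre n q
    exact ⟨s, hs2, v n a, meets_of_le ((hmem n _ a).2 ⟨ha, rfl⟩) hs1⟩
  · obtain ⟨r, hr, a, ha, hra⟩ := h.1 q le_rfl
    obtain ⟨r', hr', a', ha', hra'⟩ := h.2 r hr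
    obtain ⟨ha1, rfl⟩ := (hmem n _ a).1 ha
    obtain ⟨ha2, rfl⟩ := (hmem n _ a').1 ha'
    have : a = a' := hAanti n a ha1 a' ha2 ⟨r', hr'.trans hra, hra'⟩
    exact ⟨q, le_rfl, by rw [this]; rfl⟩
  · obtain ⟨r, hr, s, hs, hrs⟩ := h.2 q le_rfl
    obtain ⟨hs1, rfl⟩ := (hmem n _ s).1 hs
    have hfun : r ∈ IsFun x := down_IsFun x p hp r (hr.trans hq)
    rcases hv n s hs1 with h1 | h1
    · exact ⟨r, hr, IsFun.unique hfun (down_meets _ _ h.1 r hr) (down_meets _ _ h1 r hrs)⟩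
    · exact absurd hfun (h1 r hrs)

/-- If a ccc preorder has at most `κ = κ ^ ℵ₀` conditions, then it forces the continuum to be at
most `κ`. -/
theorem continuumLe [Nonempty P] (hP : PCCC P) {K : Type} (hK : ℵ₀ ≤ #K)
    (hpow : (#K) ^ (ℵ₀ : Cardinal.{0}) = #K) (hPK : #P ≤ #K) (p : P) :
    p ∈ ContinuumLe P K := by
  let N := {c : ℕ → ℕ → Option (P × ℕ) // ∀ p, p ∈ IsFun (nm c)}
  have hN : #N ≤ #K := by
    refine (mk_subtype_le _).trans ?_
    have h2 : ∀ X : Type, #X ≤ #K → #(ℕ → X) ≤ #K := by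
      intro X hX
      have : #(ℕ → X) = #X ^ (ℵ₀ : Cardinal.{0}) := by
        simp [mk_pi]
      rw [this]
      exact (power_le_power_right hX).trans hpow.le
    refine h2 _ (h2 _ ?_)
    rw [mk_option, mk_prod]
    simp only [lift_uzero, mk_nat]
    exact (add_le_add ((mul_le_mul' hPK hK).trans (mul_eq_self hK).le)
      (one_le_aleph0.trans hK)).trans (add_eq_self hK).le
  have hne : Nonempty N := by
    obtain ⟨c, hc, _⟩ := exists_nm (P := P) hP fun _ _ => ∅
    exact ⟨⟨c, hc⟩⟩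
  obtain ⟨g⟩ : Nonempty (N ↪ K) := hN
  have hsurj : Function.Surjective (Function.invFun g) := Function.invFun_surjective g.injective
  refine mem_fex_of_mem (fun i => nm (Function.invFun g i).1) ?_ ?_
  · exact down_fand (down_fall fun _ => down_IsFun _) (down_fall fun _ => down_fimp _ _)
  · refine ⟨fun i => (Function.invFun g i).2 p, fun x => mem_fimp.2 fun q _ hq => ?_⟩
    obtain ⟨c, hc1, hc2⟩ := exists_nm hP x
    obtain ⟨i, hi⟩ := hsurj ⟨c, hc1⟩
    refine ⟨q, le_rfl, mem_fex_of_mem i (down_SameReal _ _) ?_⟩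
    have h2 : q ∈ SameReal x (nm (Function.invFun g i).1) := by
      rw [show (Function.invFun g i).1 = c from congrArg Subtype.val hi]
      exact hc2 q hq
    exact h2

end Continuum

end Pool.Agent.H625.FMA
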