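import Pool.Graph.R_seed8.W684.FM.Val

/-!
# The stages of an iteration of small preorders

A variant of the construction in `Pool.Graph.R_seed8.W684.FM.Stages`: the names of the preorders
handled at stage `α` refer to elements below `α` only, and every name has only one code, so that
there are few coordinates at every stage.
-/

set_option autoImplicit false

namespace Pool.Agent.H625.FMA

open Classical
open Pool.Agent.W684.FM (Code Cond fib mem_fib Valid restr mem_restr Proper Initial CCCs
  CCCs_of_parts CCCs_empty valid_empty)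

variable {W : Type}

/-- the canonical code of a name -/
noncomputable def canon (α : W) (N : Finset W → Set (Cond W W)) : Code W W :=
  if h : ∀ F, (N F).Countable then (Code.exists_code α N h).choose else
    Code.mk α (fun _ _ => False) (fun _ _ => 0) (fun _ _ i => i.elim0) (fun _ _ i => i.elim0)

theorem canon_spec {α : W} {N : Finset W → Set (Cond W W)} (h : ∀ F, (N F).Countable) :
    (canon α N).st = α ∧ (canon α N).nm = N := by
  rw [canon, dif_pos h]
  exact (Code.exists_code α N h).choose_spec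

variable [LinearOrder W]

/-- admissible coordinates at stage `α` above `S₀` -/
structure Adm (α : W) (S₀ : Set (Code W W)) (c : Code W W) : Prop where
  st : c.st = α
  valid : ∀ F, ∀ s ∈ c.nm F, Valid S₀ s
  small : ∀ F, ∀ s ∈ c.nm F, ∀ x ∈ F, x < α
  canon : c = canon α c.nm

theorem Adm.proper {α : W} {S₀ : Set (Code W W)} (h₀ : ∀ c ∈ S₀, c.st < α) {c : Code W W}
    (h : Adm α S₀ c) : Proper c := by
  intro F s hs a ha
  rw [h.st]
  exact h₀ _ (h.valid F s hs a ha).1

/-- the candidates for the set of the coordinates at stage `α` -/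
def Cand (α : W) (S₀ : Set (Code W W)) : Set (Set (Code W W)) :=
  {M | (∀ c ∈ M, Adm α S₀ c) ∧ CCCs (S₀ ∪ M)}

theorem exists_max (α : W) (S₀ : Set (Code W W)) (h₀ : ∀ c ∈ S₀, c.st < α ∧ Proper c)
    (hc : CCCs S₀) : ∃ M, Maximal (fun M => M ∈ Cand α S₀) M := by
  apply zorn_subset
  intro 𝒞 h𝒞 hchain
  rcases 𝒞.eq_empty_or_nonempty with he | hne
  · subst he
    refine ⟨∅, ⟨by simp, by simpa using hc⟩, by simp⟩
  · refine ⟨⋃₀ 𝒞, ⟨?_, ?_⟩, fun s hs => Set.subset_sUnion_of_mem hs⟩
    · rintro c ⟨M, hM, hcM⟩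
      exact (h𝒞 hM).1 c hcM
    · apply CCCs_of_parts
      · rintro c (h | ⟨M, hM, hcM⟩)
        · exact (h₀ c h).2
        · exact ((h𝒞 hM).1 c hcM).proper fun c hc => (h₀ c hc).1
      · intro r hr
        have : ∃ M ∈ 𝒞, ∀ c ∈ r, c ∈ S₀ ∪ M := by
          induction r using Finset.induction_on with
          | empty =>
            obtain ⟨M, hM⟩ := hne
            exact ⟨M, hM, by simp⟩
          | insert c r _ ih =>
            obtain ⟨M, hM, h1⟩ := ih fun d hd => hr d (Finset.mem_insert_of_mem hd)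
            rcases hr c (Finset.mem_insert_self _ _) with h2 | ⟨M', hM', h2⟩
            · refine ⟨M, hM, fun d hd => ?_⟩
              rcases Finset.mem_insert.1 hd with h3 | h3
              · rw [h3]
                exact Or.inl h2
              · exact h1 d h3
            · rcases hchain.total hM hM' with h4 | h4
              · refine ⟨M', hM', fun d hd => ?_⟩
                rcases Finset.mem_insert.1 hd with h3 | h3
                · rw [h3]
                  exact Or.inr h2
                · exact (h1 d h3).imp id fun h => h4 h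
              · refine ⟨M, hM, fun d hd => ?_⟩
                rcases Finset.mem_insert.1 hd with h3 | h3
                · rw [h3]
                  exact Or.inr (h4 h2)
                · exact h1 d h3
        obtain ⟨M, hM, h1⟩ := this
        refine ⟨S₀ ∪ M, ⟨Set.union_subset_union_right _ (Set.subset_sUnion_of_mem hM), ?_⟩,
          h1, (h𝒞 hM).2⟩
        rintro c hcS c' (h2 | ⟨M', hM', h2⟩) hlt
        · exact Or.inl h2
        · exfalso
          have h3 : c'.st = α := ((h𝒞 hM').1 c' h2).st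
          have h4 : c.st ≤ α := by
            rcases hcS with h | h
            · exact (h₀ c h).1.le
            · exact ((h𝒞 hM).1 c h).st.le
          rw [h3] at hlt
          exact absurd h4 (not_le.2 hlt)

/-- a maximal set of coordinates at stage `α` above `S₀` -/
noncomputable def maxM (α : W) (S₀ : Set (Code W W)) : Set (Code W W) :=
  if h : ∃ M, Maximal (fun M => M ∈ Cand α S₀) M then h.choose else ∅

theorem maxM_spec {α : W} {S₀ : Set (Code W W)} (h₀ : ∀ c ∈ S₀, c.st < α ∧ Proper c)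
    (hc : CCCs S₀) : Maximal (fun M => M ∈ Cand α S₀) (maxM α S₀) := by
  have h := exists_max α S₀ h₀ hc
  rw [maxM, dif_pos h]
  exact h.choose_spec

theorem maxM_sub {α : W} {S₀ : Set (Code W W)} : ∀ c ∈ maxM α S₀, Adm α S₀ c := by
  intro c hc
  by_cases h : ∃ M, Maximal (fun M => M ∈ Cand α S₀) M
  · rw [maxM, dif_pos h] at hc
    exact h.choose_spec.1.1 c hc
  · rw [maxM, dif_neg h] at hc
    exact absurd hc (Set.notMem_empty c)

variable [WellFoundedLT W]

/-- the coordinates at stage `α` -/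
noncomputable def V : W → Set (Code W W) :=
  WellFounded.fix (wellFounded_lt (α := W)) fun α V' => maxM α (⋃ β : {β // β < α}, V' β.1 β.2)

/-- the coordinates before stage `α` -/
def Slt (α : W) : Set (Code W W) := ⋃ β : {β : W // β < α}, V β.1

/-- the coordinates up to stage `α` -/
def Sle (α : W) : Set (Code W W) := Slt α ∪ V α

variable (W) in
/-- all coordinates -/
def Sall : Set (Code W W) := ⋃ β : W, V β

theorem V_eq (α : W) : (V α : Set (Code W W)) = maxM α (Slt α) := by
  rw [V, WellFounded.fix_eq]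
  rfl

theorem V_adm {α : W} {c : Code W W} (hc : c ∈ V α) : Adm α (Slt α) c := by
  rw [V_eq] at hc
  exact maxM_sub c hc

theorem V_st {α : W} {c : Code W W} (hc : c ∈ V α) : c.st = α := (V_adm hc).st

theorem mem_Slt {α : W} {c : Code W W} : c ∈ Slt α ↔ c.st < α ∧ c ∈ V c.st := by
  rw [Slt, Set.mem_iUnion]
  constructor
  · rintro ⟨⟨β, hβ⟩, h⟩
    have h1 := V_st h
    simp only at h1 h
    subst h1
    exact ⟨hβ, h⟩
  · rintro ⟨h1, h2⟩
    exact ⟨⟨c.st, h1⟩, h2⟩

theorem V_proper {α : W} {c : Code W W} (hc : c ∈ V α) : Proper c :=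
  (V_adm hc).proper fun _ hd => (mem_Slt.1 hd).1

theorem mem_Sle {α : W} {c : Code W W} : c ∈ Sle α ↔ c.st ≤ α ∧ c ∈ V c.st := by
  rw [Sle, Set.mem_union, mem_Slt]
  constructor
  · rintro (⟨h1, h2⟩ | h)
    · exact ⟨h1.le, h2⟩
    · have h1 := V_st h
      subst h1
      exact ⟨le_rfl, h⟩
  · rintro ⟨h1, h2⟩
    rcases h1.lt_or_eq with h3 | h3
    · exact Or.inl ⟨h3, h2⟩
    · exact Or.inr (h3 ▸ h2)

theorem mem_Sall {c : Code W W} : c ∈ Sall W ↔ c ∈ V c.st := by
  rw [Sall, Set.mem_iUnion]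
  constructor
  · rintro ⟨β, h⟩
    have h1 := V_st h
    subst h1
    exact h
  · exact fun h => ⟨_, h⟩

theorem proper_Sall {c : Code W W} (hc : c ∈ Sall W) : Proper c :=
  V_proper (mem_Sall.1 hc)

theorem Slt_sub_Sall (α : W) : Slt α ⊆ Sall W := fun _ hc =>
  mem_Sall.2 (mem_Slt.1 hc).2

theorem Sle_sub_Sall (α : W) : Sle α ⊆ Sall W := fun _ hc =>
  mem_Sall.2 (mem_Sle.1 hc).2

theorem initial_Slt (α : W) : Initial (Slt α) (Sall W) :=
  ⟨Slt_sub_Sall α, fun _ hc _ hc' hlt => mem_Slt.2 ⟨hlt.trans (mem_Slt.1 hc).1, mem_Sall.1 hc'⟩⟩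

theorem initial_Sle (α : W) : Initial (Sle α) (Sall W) :=
  ⟨Sle_sub_Sall α, fun _ hc _ hc' hlt =>
    mem_Sle.2 ⟨hlt.le.trans (mem_Sle.1 hc).1, mem_Sall.1 hc'⟩⟩

/-- chain condition of a part determined by a set of stages closed downwards -/
theorem CCCs_stages (S : Set (Code W W)) (hS : S ⊆ Sall W) (L : Set W)
    (hL : ∀ c ∈ S, c.st ∈ L) (hS' : ∀ α ∈ L, Sle α ⊆ S) (h : ∀ α ∈ L, CCCs (Sle α : Set (Code W W))) :
    CCCs S := by
  apply CCCs_of_parts fun c hc => proper_Sall (hS hc)
  intro r hr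
  rcases r.eq_empty_or_nonempty with rfl | hne
  · exact ⟨∅, ⟨Set.empty_subset _, fun c hc => absurd hc (Set.notMem_empty c)⟩, by simp,
      CCCs_empty⟩
  · obtain ⟨c0, hc0, hmax⟩ := Finset.exists_max_image r Code.st hne
    have hα : c0.st ∈ L := hL c0 (hr c0 hc0)
    refine ⟨Sle c0.st, ⟨hS' _ hα, fun c hc c' hc' hlt =>
      (initial_Sle _).2 c hc c' (hS hc') hlt⟩, fun c hc => ?_, h _ hα⟩
    exact mem_Sle.2 ⟨hmax c hc, mem_Sall.1 (hS (hr c hc))⟩

theorem CCCs_Sle (α : W) : CCCs (Sle α : Set (Code W W)) := by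
  induction α using WellFoundedLT.induction with
  | ind α ih =>
    have h1 : CCCs (Slt α : Set (Code W W)) := by
      apply CCCs_stages _ (Slt_sub_Sall α) (Set.Iio α)
      · intro c hc
        exact (mem_Slt.1 hc).1
      · intro β hβ c hc
        exact mem_Slt.2 ⟨(mem_Sle.1 hc).1.trans_lt hβ, (mem_Sle.1 hc).2⟩
      · intro β hβ
        exact ih β hβ
    have h2 := maxM_spec (α := α) (S₀ := Slt α) (fun c hc =>
      ⟨(mem_Slt.1 hc).1, V_proper (mem_Slt.1 hc).2⟩) h1
    rw [Sle, V_eq]
    exact h2.1.2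

theorem CCCs_Slt (α : W) : CCCs (Slt α : Set (Code W W)) := by
  apply CCCs_stages _ (Slt_sub_Sall α) (Set.Iio α)
  · intro c hc
    exact (mem_Slt.1 hc).1
  · intro β hβ c hc
    exact mem_Slt.2 ⟨(mem_Sle.1 hc).1.trans_lt hβ, (mem_Sle.1 hc).2⟩
  · intro β _
    exact CCCs_Sle β

theorem CCCs_Sall : CCCs (Sall W) := by
  apply CCCs_stages _ (Set.Subset.refl _) Set.univ
  · exact fun _ _ => trivial
  · exact fun β _ => Sle_sub_Sall β
  · exact fun β _ => CCCs_Sle β

/-- maximality -/
theorem mem_V_of {α : W} {c : Code W W} (h1 : Adm α (Slt α) c) (h3 : CCCs (Sle α ∪ {c})) :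
    c ∈ V α := by
  have hm := maxM_spec (α := α) (S₀ := Slt α) (fun c hc =>
      ⟨(mem_Slt.1 hc).1, V_proper (mem_Slt.1 hc).2⟩) (CCCs_Slt α)
  rw [← V_eq] at hm
  have h4 : V α ∪ {c} ∈ Cand α (Slt α : Set (Code W W)) := by
    refine ⟨?_, ?_⟩
    · rintro d (hd | hd)
      · exact V_adm hd
      · rw [Set.mem_singleton_iff.1 hd]
        exact h1
    · rw [← Set.union_assoc]
      exact h3
  exact hm.2 h4 Set.subset_union_left (Or.inr rfl)

end Pool.Agent.H625.FMA
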