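import Pool.Graph.R_seed8.W684.FM.Main
import Pool.Agent.H625.FMA.Stages

/-!
# The iteration forces Martin's axiom for fewer than `#W` dense sets
-/

set_option autoImplicit false

namespace Pool.Agent.H625.FMA

open Classical Cardinal Pool.Agent.Helper669.Forcing
open Pool.Agent.W684.FM (Code Cond fib mem_fib fib_congr Valid restr mem_restr restr_subset
  restr_mono subset_restr valid_restr amalg_one Proper Initial CCCs
  CCCs_of_parts CCCs_empty valid_empty PCCC exists_predense exists_countable_name meets_of_dense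
  IsPreN CCCN IsDenseN IsFilterN CompatN UnbN MartinHolds down_IsPreN down_CCCN down_IsDenseN
  down_IsFilterN two_step)

attribute [-instance] LinearOrder.toDecidableEq

variable {W : Type} [LinearOrder W] [WellFoundedLT W]

variable (W) in
/-- the poset of the iteration -/
def PP : Type := {p : Cond W W // Valid (Sall W) p}

instance : Preorder (PP W) where
  le p q := q.1 ⊆ p.1
  le_refl p := Finset.Subset.refl _
  le_trans p q r h1 h2 := Finset.Subset.trans h2 h1

instance : Nonempty (PP W) := ⟨⟨∅, valid_empty _⟩⟩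

theorem PP.le_def {p q : PP W} : p ≤ q ↔ q.1 ⊆ p.1 := Iff.rfl

theorem pccc : PCCC (PP W) := by
  intro A hA
  have h1 : (Subtype.val '' A).Countable := by
    apply CCCs_Sall
    · rintro _ ⟨p, _, rfl⟩
      exact p.2
    · rintro _ ⟨p, hp, rfl⟩ _ ⟨q, hq, rfl⟩ hne ⟨r, hr, h1, h2⟩
      exact hA p hp q hq (fun h => hne (by rw [h])) ⟨⟨r, hr⟩, h1, h2⟩
  exact Set.countable_of_injective_of_countable_image Subtype.val_injective.injOn h1

/-- restriction to the coordinates before stage `α` -/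
noncomputable def rlt (α : W) (p : PP W) : PP W :=
  ⟨restr (Slt α) p.1, (valid_restr (fun _ => proper_Sall) (initial_Slt α) p.2).mono
    (Slt_sub_Sall α)⟩

/-- all conditions in `N` only have coordinates of stages before `α` -/
def Below (α : W) (N : Set (PP W)) : Prop := ∀ s ∈ N, ∀ a ∈ s.1, a.1.st < α

theorem Below.memSlt {α : W} {N : Set (PP W)} (h : Below α N) {s : PP W} (hs : s ∈ N)
    {a : Code W W × W} (ha : a ∈ s.1) : a.1 ∈ Slt α :=
  mem_Slt.2 ⟨h s hs a ha, mem_Sall.1 (s.2 a ha).1⟩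

/-- names referring to the stages before `α` only are decided by the restrictions -/
theorem meets_rlt {α : W} {N : Set (PP W)} (hN : Below α N) {p : PP W} (hp : p ∈ meets N) :
    rlt α p ∈ meets N := by
  intro q hq
  have hq' : restr (Slt α) p.1 ⊆ q.1 := hq
  have hv : Valid (Sall W) (restr (Slt α) q.1 ∪ p.1) :=
    amalg_one (Slt_sub_Sall α) p.2
      (valid_restr (fun _ => proper_Sall) (initial_Slt α) q.2)
      (subset_restr hq' fun a ha => (mem_restr.1 ha).2)
  obtain ⟨r, hr, s, hs, hrs⟩ := hp ⟨_, hv⟩ (PP.le_def.2 Finset.subset_union_right)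
  have hr' : restr (Slt α) q.1 ∪ p.1 ⊆ r.1 := hr
  have hrs' : s.1 ⊆ r.1 := hrs
  have hv2 : Valid (Sall W) (restr (Slt α) r.1 ∪ q.1) := by
    refine amalg_one (Slt_sub_Sall α) q.2
      (valid_restr (fun _ => proper_Sall) (initial_Slt α) r.2) ?_
    refine subset_restr (Finset.Subset.trans Finset.subset_union_left hr') ?_
    exact fun a ha => (mem_restr.1 ha).2
  exact ⟨⟨_, hv2⟩, PP.le_def.2 Finset.subset_union_right, s, hs,
    PP.le_def.2 (Finset.Subset.trans (subset_restr hrs' fun a ha => hN.memSlt hs ha)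
      Finset.subset_union_left)⟩

variable (W) in
/-- every family of fewer than `#W` stages has an upper bound -/
def Bdd : Prop := ∀ L : Set W, #L < #W → ∃ α, ∀ β ∈ L, β < α

theorem exists_below (hW : Bdd W) (hW' : ℵ₀ < #W) {ι : Type} (hι : #ι < #W)
    (N : ι → Set (PP W)) (hN : ∀ i, (N i).Countable) : ∃ α, ∀ β, α ≤ β → ∀ i, Below β (N i) := by
  have h1 : #(⋃ i, ⋃ s ∈ N i, (fun a : Code W W × W => a.1.st) '' (s.1 : Set (Code W W × W))) <
      #W := by
    refine (Cardinal.mk_iUnion_le _).trans_lt ?_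
    calc #ι * _ ≤ #ι * ℵ₀ := by
          apply mul_le_mul' le_rfl
          apply ciSup_le'
          intro i
          rw [Cardinal.le_aleph0_iff_set_countable]
          exact (hN i).biUnion fun s _ => (s.1.countable_toSet).image _
      _ < #W := Cardinal.mul_lt_of_lt hW'.le hι hW'
  obtain ⟨α, hα⟩ := hW _ h1
  refine ⟨α, fun β hβ i s hs a ha => (hα _ ?_).trans_le hβ⟩
  rw [Set.mem_iUnion]
  refine ⟨i, ?_⟩
  rw [Set.mem_iUnion₂]
  exact ⟨s, hs, a, ha, rfl⟩

section Step

variable {Y : Type}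

/-- The data at the stage where the name `R` of a preorder on `Y` is handled. -/
structure Data (j : Y → W) (α : W) (q0 : PP W) (R : Y → Y → Set (PP W))
    (A : Finset Y → Set (PP W)) (c : Code W W) : Prop where
  hj : Function.Injective j
  hjα : ∀ y, j y < α
  hpre : q0 ∈ IsPreN R
  hccc : q0 ∈ CCCN R
  hR : ∀ x y, Below α (R x y)
  hA : ∀ F, Below α (A F)
  hAlb : ∀ F, ∀ a ∈ A F, a ≤ q0 ∧ ∃ z, ∀ x ∈ F, a ∈ meets (R z x)
  hAd : ∀ F, ∀ p ≤ q0, (∃ z, ∀ x ∈ F, p ∈ meets (R z x)) → ∃ a ∈ A F, ∃ r, r ≤ p ∧ r ≤ a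
  hst : c.st = α
  hnm : ∀ F s, s ∈ c.nm F ↔ ∃ F' : Finset Y, F = F'.image j ∧ ∃ a ∈ A F', s = a.1
  hcan : c = canon α c.nm

variable {j : Y → W} {α : W} {q0 : PP W} {R : Y → Y → Set (PP W)} {A : Finset Y → Set (PP W)}
    {c : Code W W}

theorem Data.adm (h : Data j α q0 R A c) : Adm α (Slt α) c where
  st := h.hst
  valid F s hs := by
    obtain ⟨F', _, a, ha, rfl⟩ := (h.hnm F s).1 hs
    exact a.2.of_mem fun b hb => (h.hA F').memSlt ha hb
  small F s hs x hx := by
    obtain ⟨F', rfl, _⟩ := (h.hnm F s).1 hs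
    obtain ⟨y, _, rfl⟩ := Finset.mem_image.1 hx
    exact h.hjα y
  canon := h.hcan

theorem Data.proper (h : Data j α q0 R A c) : Proper c := by
  intro F s hs a ha
  obtain ⟨F', _, t, ht, rfl⟩ := (h.hnm F s).1 hs
  rw [h.hst]
  exact h.hA F' t ht a ha

theorem Data.notMem (h : Data j α q0 R A c) {F : Finset Y} {a : PP W} (ha : a ∈ A F) (x : W) :
    (c, x) ∉ a.1 := fun hx => by
  have := h.hA F a ha _ hx
  rw [h.hst] at this
  exact lt_irrefl _ this

theorem Data.notMem_Slt (h : Data j α q0 R A c) : c ∉ Slt α := fun hx => by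
  have := (mem_Slt.1 hx).1
  rw [h.hst] at this
  exact lt_irrefl _ this

/-- the finite subset of `Y` attached to the coordinate -/
noncomputable def fibY (j : Y → W) (p : Cond W W) (c : Code W W) : Finset Y :=
  if h : ∃ F : Finset Y, ∀ y, y ∈ F ↔ (c, j y) ∈ p then h.choose else ∅

omit [LinearOrder W] [WellFoundedLT W] in
theorem mem_fibY (hj : Function.Injective j) {p : Cond W W} {c : Code W W} {y : Y} :
    y ∈ fibY j p c ↔ (c, j y) ∈ p := by
  have h : ∃ F : Finset Y, ∀ y, y ∈ F ↔ (c, j y) ∈ p :=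
    ⟨(fib p c).preimage j hj.injOn, fun y => by rw [Finset.mem_preimage, mem_fib]⟩
  rw [fibY, dif_pos h]
  exact h.choose_spec y

/-- in a valid condition, the set attached to the coordinate comes from `Y` -/
theorem Data.fib_eq (h : Data j α q0 R A c) {S : Set (Code W W)} {p : Cond W W}
    (hp : Valid S p) {x : W} (hx : (c, x) ∈ p) :
    fib p c = (fibY j p c).image j ∧ ∃ a ∈ A (fibY j p c), a.1 ⊆ p := by
  obtain ⟨_, s, hs, hsp⟩ := hp _ hx
  obtain ⟨F', hF', a, ha, rfl⟩ := (h.hnm _ s).1 hs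
  simp only at hF'
  have h1 : fibY j p c = F' := by
    ext y
    rw [mem_fibY h.hj, ← mem_fib, hF', Finset.mem_image]
    constructor
    · rintro ⟨z, hz, hzy⟩
      rwa [← h.hj hzy]
    · exact fun hy => ⟨y, hy, rfl⟩
  rw [h1]
  exact ⟨hF', a, ha, hsp⟩

/-- the chain condition for one more coordinate -/
theorem Data.CCCs (h : Data j α q0 R A c) : CCCs (Sle α ∪ {c}) := by
  by_cases hc : c ∈ (Sle α : Set (Code W W))
  · have : (Sle α ∪ {c} : Set (Code W W)) = Sle α := by
      rw [Set.union_eq_left, Set.singleton_subset_iff]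
      exact hc
    rw [this]
    exact CCCs_Sle α
  intro B hB hanti
  have hS : ∀ d ∈ (Sle α ∪ {c} : Set (Code W W)), Proper d := by
    rintro d (hd | hd)
    · exact proper_Sall (Sle_sub_Sall α hd)
    · rw [Set.mem_singleton_iff.1 hd]
      exact h.proper
  have hinit : Initial (Sle α) (Sle α ∪ {c} : Set (Code W W)) := by
    refine ⟨Set.subset_union_left, ?_⟩
    rintro d hd d' (hd' | hd') hlt
    · exact hd'
    · exfalso
      rw [Set.mem_singleton_iff.1 hd', h.hst] at hlt
      exact absurd (mem_Sle.1 hd).1 (not_le.2 hlt)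
  -- the elements without coordinate `c`
  have h0 : {p ∈ B | ∀ x, (c, x) ∉ p}.Countable := by
    have hv : ∀ p ∈ {p ∈ B | ∀ x, (c, x) ∉ p}, Valid (Sle α) p := by
      rintro p ⟨hp, hpc⟩
      refine (hB p hp).of_mem fun a ha => ?_
      rcases (hB p hp a ha).1 with h1 | h1
      · exact h1
      · exact absurd ha (by
          have := hpc a.2
          rw [← Set.mem_singleton_iff.1 h1] at this
          exact this)
    apply CCCs_Sle α _ hv
    rintro p hp q hq hne ⟨r, hr, h1, h2⟩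
    exact hanti p hp.1 q hq.1 hne ⟨r, hr.mono Set.subset_union_left, h1, h2⟩
  -- the elements with coordinate `c`
  suffices h1 : {p ∈ B | ∃ x, (c, x) ∈ p}.Countable by
    refine (h0.union h1).mono fun p hp => ?_
    by_cases h2 : ∃ x, (c, x) ∈ p
    · exact Or.inr ⟨hp, h2⟩
    · push Not at h2
      exact Or.inl ⟨hp, h2⟩
  by_contra hunc
  let p' : Cond W W → PP W := fun p =>
    if hp : Valid (Sall W) (restr (Sle α) p) then ⟨restr (Sle α) p, hp⟩ else q0
  have hp' : ∀ p ∈ {p ∈ B | ∃ x, (c, x) ∈ p}, (p' p).1 = restr (Sle α) p := by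
    rintro p ⟨hp, _⟩
    have hv : Valid (Sall W) (restr (Sle α) p) :=
      (valid_restr hS hinit (hB p hp)).mono (Sle_sub_Sall α)
    have h1 : p' p = ⟨restr (Sle α) p, hv⟩ := dif_pos hv
    rw [h1]
  have hz : ∀ p ∈ {p ∈ B | ∃ x, (c, x) ∈ p},
      p' p ≤ q0 ∧ ∃ z, ∀ x ∈ fibY j p c, p' p ∈ meets (R z x) := by
    rintro p ⟨hp, y, hy⟩
    obtain ⟨_, a, ha, hap⟩ := h.fib_eq (hB p hp) hy
    have hle : p' p ≤ a := by
      rw [PP.le_def, hp' p ⟨hp, y, hy⟩]
      exact subset_restr hap fun b hb => Or.inl ((h.hA _).memSlt ha hb)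
    obtain ⟨h1, z, h2⟩ := h.hAlb _ a ha
    exact ⟨hle.trans h1, z, fun x hx => down_meets _ _ (h2 x hx) _ hle⟩
  have : Nonempty Y := by
    by_contra hne
    apply hunc
    convert Set.countable_empty
    rw [Set.eq_empty_iff_forall_notMem]
    intro p hp
    obtain ⟨_, z, _⟩ := hz p hp
    exact hne ⟨z⟩
  choose! hle z hz using hz
  obtain ⟨p1, hp1, p2, hp2, hne, u, hu1, hu2, w, hw1, hw2⟩ :=
    two_step pccc h.hccc {p ∈ B | ∃ x, (c, x) ∈ p} hunc p' z hle
  have huq : u ≤ q0 := hu1.trans (hle p1 hp1)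
  have hupre : u ∈ IsPreN R := down_IsPreN R _ h.hpre _ huq
  have hlb : ∀ x ∈ fibY j p1 c ∪ fibY j p2 c, u ∈ meets (R w x) := by
    intro x hx
    rcases Finset.mem_union.1 hx with h1 | h1
    · exact IsPreN.trans hupre hw1 (down_meets _ _ (hz p1 hp1 x h1) _ hu1)
    · exact IsPreN.trans hupre hw2 (down_meets _ _ (hz p2 hp2 x h1) _ hu2)
  obtain ⟨a, ha, u2, hu2u, hu2a⟩ := h.hAd _ u huq ⟨w, hlb⟩
  have hres : Valid (Sle α) (restr (Sle α) u2.1) :=
    valid_restr (fun _ => proper_Sall) (initial_Sle α) u2.2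
  let G : Finset Y := fibY j p1 c ∪ fibY j p2 c
  let t : Cond W W := restr (Sle α) u2.1 ∪ G.image fun x => (c, j x)
  have hmem : ∀ b, b ∈ t ↔ b ∈ restr (Sle α) u2.1 ∨ (b.1 = c ∧ ∃ x ∈ G, j x = b.2) := by
    rintro ⟨d, x⟩
    simp only [t, Finset.mem_union, Finset.mem_image, Prod.mk.injEq]
    constructor
    · rintro (h1 | ⟨y, hy, rfl, rfl⟩)
      · exact Or.inl h1
      · exact Or.inr ⟨rfl, y, hy, rfl⟩
    · rintro (h1 | ⟨rfl, y, hy, rfl⟩)
      · exact Or.inl h1
      · exact Or.inr ⟨y, hy, rfl, rfl⟩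
  have hnc : ∀ x, (c, x) ∉ restr (Sle α) u2.1 := fun x hx => hc (mem_restr.1 hx).2
  have ht : Valid (Sle α ∪ {c}) t := by
    intro b hb
    rcases (hmem b).1 hb with h1 | ⟨h1, h2⟩
    · obtain ⟨h3, s, hs, hst⟩ := hres b h1
      refine ⟨Or.inl h3, s, ?_, hst.trans Finset.subset_union_left⟩
      have h4 : fib t b.1 = fib (restr (Sle α) u2.1) b.1 := fib_congr fun x => by
        rw [hmem]
        constructor
        · rintro (h5 | ⟨h5, _⟩)
          · exact h5
          · simp only at h5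
            rw [h5] at h3
            exact absurd h3 hc
        · exact Or.inl
      rw [h4]
      exact hs
    · refine ⟨Or.inr h1, a.1, ?_, ?_⟩
      · have h4 : fib t b.1 = G.image j := by
          ext x
          rw [mem_fib, hmem, h1, Finset.mem_image]
          constructor
          · rintro (h5 | ⟨_, h5⟩)
            · exact absurd h5 (hnc x)
            · exact h5
          · exact fun h5 => Or.inr ⟨rfl, h5⟩
        rw [h4, h1, h.hnm]
        exact ⟨G, rfl, a, ha, rfl⟩
      · refine Finset.Subset.trans ?_ Finset.subset_union_left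
        exact subset_restr hu2a fun b hb => Or.inl ((h.hA _).memSlt ha hb)
  have hsub : ∀ p ∈ {p ∈ B | ∃ x, (c, x) ∈ p}, u ≤ p' p → fibY j p c ⊆ G → p ⊆ t := by
    intro p hp hup hG b hb
    rw [hmem]
    rcases (hB p hp.1 b hb).1 with h1 | h1
    · left
      rw [PP.le_def, hp' p hp] at hup
      exact mem_restr.2 ⟨hu2u (hup (mem_restr.2 ⟨hb, h1⟩)), h1⟩
    · right
      have h2 : b.1 = c := h1
      have hb' : (c, b.2) ∈ p := by
        rw [← h2]
        exact hb
      have h3 := (h.fib_eq (hB p hp.1) hb').1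
      have h4 : b.2 ∈ fib p c := mem_fib.2 hb'
      rw [h3, Finset.mem_image] at h4
      obtain ⟨y, hy, hyb⟩ := h4
      exact ⟨h2, y, hG hy, hyb⟩
  exact hanti p1 hp1.1 p2 hp2.1 hne ⟨t, ht, hsub p1 hp1 hu1 Finset.subset_union_left,
    hsub p2 hp2 hu2 Finset.subset_union_right⟩

theorem Data.mem_V (h : Data j α q0 R A c) : c ∈ V α := mem_V_of h.adm h.CCCs

theorem Data.mem_Sall (h : Data j α q0 R A c) : c ∈ Sall W :=
  FMA.mem_Sall.2 (by rw [h.hst]; exact h.mem_V)

/-- a condition extends to one which puts into the filter an element of a given dense set below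
all elements already put into it -/
theorem Data.ext [Nonempty Y] (h : Data j α q0 R A c) {D : Y → Set (PP W)}
    (hD : q0 ∈ IsDenseN R D) (hDb : ∀ x, Below α (D x)) {q : PP W} (hq : q ≤ q0) :
    ∃ r ≤ q, ∃ d, (c, j d) ∈ r.1 ∧ r ∈ meets (D d) ∧ ∀ x, (c, j x) ∈ q.1 → r ∈ meets (R d x) := by
  have hz : ∃ z, ∀ x ∈ fibY j q.1 c, q ∈ meets (R z x) := by
    rcases (fibY j q.1 c).eq_empty_or_nonempty with h1 | ⟨y, hy⟩
    · rw [h1]
      exact ⟨Classical.arbitrary Y, by simp⟩
    · rw [mem_fibY h.hj] at hy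
      obtain ⟨_, a, ha, haq⟩ := h.fib_eq q.2 hy
      obtain ⟨_, z, hz⟩ := h.hAlb _ a ha
      exact ⟨z, fun x hx => down_meets _ _ (hz x hx) _ haq⟩
  obtain ⟨z, hz⟩ := hz
  obtain ⟨u, hu, d, hud, hur⟩ := mem_fex.1 (hD z) q hq
  have huq : u ≤ q0 := hu.trans hq
  have hupre : u ∈ IsPreN R := down_IsPreN R _ h.hpre _ huq
  have hdx : ∀ x ∈ insert d (fibY j q.1 c), u ∈ meets (R d x) := by
    intro x hx
    rcases Finset.mem_insert.1 hx with rfl | hx
    · exact IsPreN.refl hupre _
    · exact IsPreN.trans hupre hur (down_meets _ _ (hz x hx) _ hu)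
  obtain ⟨a, ha, u2, hu2u, hu2a⟩ := h.hAd _ u huq ⟨d, hdx⟩
  have hres : Valid (Slt α) (restr (Slt α) u2.1) :=
    valid_restr (fun _ => proper_Sall) (initial_Slt α) u2.2
  have hqu2 : q.1 ⊆ u2.1 := (hu2u.trans hu : u2 ≤ q)
  have hv : Valid (Sall W) (restr (Slt α) u2.1 ∪ q.1) :=
    amalg_one (Slt_sub_Sall α) q.2 hres (restr_mono hqu2)
  let t : Cond W W := insert (c, j d) (restr (Slt α) u2.1 ∪ q.1)
  have hnc : ∀ x, (c, x) ∉ restr (Slt α) u2.1 := fun x hx => h.notMem_Slt (mem_restr.1 hx).2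
  have haub : a.1 ⊆ restr (Slt α) u2.1 := subset_restr hu2a fun b hb => (h.hA _).memSlt ha hb
  have ht : Valid (Sall W) t := by
    intro b hb
    by_cases hbc : b.1 = c
    · refine ⟨by rw [hbc]; exact h.mem_Sall, a.1, ?_, ?_⟩
      · have h4 : fib t b.1 = (insert d (fibY j q.1 c)).image j := by
          ext x
          rw [mem_fib, Finset.mem_insert, Finset.mem_union, Finset.mem_image, hbc]
          constructor
          · rintro (h5 | h5 | h5)
            · exact ⟨d, Finset.mem_insert_self _ _, (Prod.mk.inj h5).2.symm⟩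
            · exact absurd h5 (hnc x)
            · have h6 := (h.fib_eq q.2 h5).1
              have h7 : x ∈ fib q.1 c := mem_fib.2 h5
              rw [h6, Finset.mem_image] at h7
              obtain ⟨y, hy, rfl⟩ := h7
              exact ⟨y, Finset.mem_insert_of_mem hy, rfl⟩
          · rintro ⟨y, hy, rfl⟩
            rcases Finset.mem_insert.1 hy with rfl | hy
            · exact Or.inl rfl
            · exact Or.inr (Or.inr ((mem_fibY h.hj).1 hy))
        rw [h4, hbc, h.hnm]
        exact ⟨_, rfl, a, ha, rfl⟩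
      · exact haub.trans (Finset.subset_union_left.trans (Finset.subset_insert _ _))
    · have hb' : b ∈ restr (Slt α) u2.1 ∪ q.1 := by
        rcases Finset.mem_insert.1 hb with h1 | h1
        · exact absurd (by rw [h1]) hbc
        · exact h1
      obtain ⟨h1, s, hs, hst⟩ := hv b hb'
      refine ⟨h1, s, ?_, hst.trans (Finset.subset_insert _ _)⟩
      have h4 : fib t b.1 = fib (restr (Slt α) u2.1 ∪ q.1) b.1 := fib_congr fun x => by
        rw [Finset.mem_insert]
        constructor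
        · rintro (h5 | h5)
          · exact absurd (Prod.mk.inj h5).1 hbc
          · exact h5
        · exact Or.inr
      rw [h4]
      exact hs
  let r : PP W := ⟨t, ht⟩
  have hrle : r ≤ rlt α u2 := by
    rw [PP.le_def]
    exact Finset.Subset.trans Finset.subset_union_left (Finset.subset_insert _ _)
  refine ⟨r, ?_, d, Finset.mem_insert_self _ _, ?_, ?_⟩
  · rw [PP.le_def]
    exact Finset.Subset.trans Finset.subset_union_right (Finset.subset_insert _ _)
  · exact down_meets _ _ (meets_rlt (hDb d) (down_meets _ _ hud _ hu2u)) _ hrle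
  · intro x hx
    have h1 : u2 ∈ meets (R d x) :=
      down_meets _ _ (hdx x (Finset.mem_insert_of_mem ((mem_fibY h.hj).2 hx))) _ hu2u
    exact down_meets _ _ (meets_rlt (h.hR d x) h1) _ hrle

/-- the generic filter -/
def genF (j : Y → W) (c : Code W W) (R : Y → Y → Set (PP W)) : Y → Set (PP W) :=
  fun y => {p | ∃ x, (c, j x) ∈ p.1 ∧ p ∈ meets (R x y)}

theorem down_genF (j : Y → W) (c : Code W W) (R : Y → Y → Set (PP W)) (y : Y) :
    Down (genF j c R y) := by
  rintro p ⟨x, hx, hp⟩ q hq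
  exact ⟨x, hq hx, down_meets _ _ hp _ hq⟩

theorem Data.filter [Nonempty Y] (h : Data j α q0 R A c) {D : Y → Y → Set (PP W)}
    (hD : ∀ i, q0 ∈ IsDenseN R (D i)) (hDb : ∀ i x, Below α (D i x)) :
    q0 ∈ fand (IsFilterN R (genF j c R))
        (fall fun i => fex fun x => fand (meets (genF j c R x)) (meets (D i x))) := by
  have i0 : Y := Classical.arbitrary Y
  have hmeet : q0 ∈ fall fun i => fex fun x => fand (meets (genF j c R x)) (meets (D i x)) := by
    intro i
    rw [mem_fex]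
    intro q hq
    obtain ⟨r, hr, d, hd, hrD, _⟩ := h.ext (hD i) (hDb i) hq
    have hrpre : r ∈ IsPreN R := down_IsPreN R _ h.hpre _ (hr.trans hq)
    exact ⟨r, hr, d, meets_of_mem ⟨d, hd, IsPreN.refl hrpre d⟩, hrD⟩
  refine ⟨⟨?_, ?_, ?_⟩, hmeet⟩
  · rw [mem_fex]
    intro q hq
    obtain ⟨r, hr, x, hx, _⟩ := mem_fex.1 (hmeet i0) q hq
    exact ⟨r, hr, x, hx⟩
  · intro x y
    rw [mem_fimp]
    rintro q hq ⟨h1, h2⟩
    obtain ⟨r, hr, x', hx', hrx⟩ := exists_of_meets (down_genF j c R x) h1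
    have hrpre : r ∈ IsPreN R := down_IsPreN R _ h.hpre _ (hr.trans hq)
    exact ⟨r, hr, meets_of_mem ⟨x', hx', IsPreN.trans hrpre hrx (down_meets _ _ h2 _ hr)⟩⟩
  · intro x y
    rw [mem_fimp]
    rintro q hq ⟨h1, h2⟩
    obtain ⟨r, hr, x', hx', hrx⟩ := exists_of_meets (down_genF j c R x) h1
    obtain ⟨s, hs, y', hy', hsy⟩ :=
      exists_of_meets (down_genF j c R y) (down_meets _ _ h2 _ hr)
    have hsq : s ≤ q0 := hs.trans (hr.trans hq)
    obtain ⟨t, ht, d, hd, _, htd⟩ := h.ext (hD i0) (hDb i0) hsq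
    have htpre : t ∈ IsPreN R := down_IsPreN R _ h.hpre _ (ht.trans hsq)
    refine ⟨t, ht.trans (hs.trans hr), ?_⟩
    refine mem_fex_of_mem d (down_fand (down_meets _) (down_fand (down_meets _) (down_meets _)))
      ⟨meets_of_mem ⟨d, hd, IsPreN.refl htpre d⟩, ?_, ?_⟩
    · exact IsPreN.trans htpre (htd x' (hs hx')) (down_meets _ _ hrx _ (ht.trans hs))
    · exact IsPreN.trans htpre (htd y' hy') (down_meets _ _ hsy _ ht)

end Step

/-- The iteration forces Martin's axiom for preorders on sets smaller than `W`. -/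
theorem martinHolds (hW : Bdd W) (hW' : ℵ₀ < #W) {Y : Type} [Nonempty Y] (hY : #Y < #W)
    (p : PP W) : p ∈ MartinHolds (PP W) Y := by
  intro R D
  rw [mem_fimp]
  rintro q0 _ ⟨hpre, hccc, hD⟩
  refine ⟨q0, le_rfl, ?_⟩
  -- countable names
  choose R' hR'c hR' using fun x y => exists_countable_name pccc (R x y)
  choose D' hD'c hD' using fun i x => exists_countable_name pccc (D i x)
  have hRe : ∀ x y, meets (R x y) = meets (R' x y) := fun x y => (hR' x y).symm
  have hDe : ∀ i x, meets (D i x) = meets (D' i x) := fun i x => (hD' i x).symm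
  have hpre' : q0 ∈ IsPreN R' := by
    simpa only [IsPreN, hRe] using hpre
  have hccc' : q0 ∈ CCCN R' := by
    simpa only [CCCN, CompatN, hRe] using hccc
  have hD2 : ∀ i, q0 ∈ IsDenseN R' (D' i) := by
    intro i
    have := hD i
    simpa only [IsDenseN, hRe, hDe] using this
  choose A hAc hAlb hAd using fun F : Finset Y => exists_predense (P := PP W) pccc
    {r | r ≤ q0 ∧ ∃ z, ∀ x ∈ F, r ∈ meets (R' z x)} (by
      rintro r ⟨h1, z, h2⟩ s hs
      exact ⟨hs.trans h1, z, fun x hx => down_meets _ _ (h2 x hx) _ hs⟩)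
  have hYY : #(Y × Y) < #W := by
    have h0 : #(Y × Y) = #Y * #Y := by simp
    rw [h0]
    exact Cardinal.mul_lt_of_lt hW'.le hY hY
  have hFY : #(Finset Y) < #W := by
    rcases finite_or_infinite Y with hfin | hinf
    · exact (Cardinal.lt_aleph0_of_finite _).trans hW'
    · rw [Cardinal.mk_finset_of_infinite]
      exact hY
  obtain ⟨α1, h1⟩ := exists_below hW hW' hYY (fun i => R' i.1 i.2)
    fun i => hR'c i.1 i.2
  obtain ⟨α2, h2⟩ := exists_below hW hW' hYY (fun i => D' i.1 i.2)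
    fun i => hD'c i.1 i.2
  obtain ⟨α3, h3⟩ := exists_below hW hW' hFY A hAc
  -- an embedding of `Y`
  obtain ⟨⟨j, hj⟩⟩ : Nonempty (Y ↪ W) := hY.le
  obtain ⟨α4, h4⟩ := hW (Set.range j) (mk_range_le.trans_lt hY)
  let α := max (max α1 α4) (max α2 α3)
  have hα1 : α1 ≤ α := (le_max_left _ _).trans (le_max_left _ _)
  have hα4 : α4 ≤ α := (le_max_right _ _).trans (le_max_left _ _)
  have hα2 : α2 ≤ α := (le_max_left _ _).trans (le_max_right _ _)
  have hα3 : α3 ≤ α := (le_max_right _ _).trans (le_max_right _ _)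
  let N : Finset W → Set (Cond W W) := fun F =>
    {s | ∃ F' : Finset Y, F = F'.image j ∧ ∃ a ∈ A F', s = a.1}
  have hN : ∀ F, (N F).Countable := by
    intro F
    by_cases hF : ∃ F' : Finset Y, F = F'.image j
    · obtain ⟨F', rfl⟩ := hF
      refine ((hAc F').image Subtype.val).mono ?_
      rintro s ⟨F'', hF'', a, ha, rfl⟩
      rw [Finset.image_injective hj hF'']
      exact ⟨a, ha, rfl⟩
    · convert Set.countable_empty
      rw [Set.eq_empty_iff_forall_notMem]
      rintro s ⟨F', hF', _⟩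
      exact hF ⟨F', hF'⟩
  have hdata : Data j α q0 R' A (canon α N) := by
    refine ⟨hj, fun y => (h4 _ ⟨y, rfl⟩).trans_le hα4, hpre', hccc', fun x y => h1 α hα1 (x, y),
      fun F => h3 α hα3 F, fun F a ha => hAlb F ha, ?_, (canon_spec hN).1, ?_, ?_⟩
    · intro F p hp hz
      exact hAd F p ⟨hp, hz⟩
    · intro F s
      rw [(canon_spec hN).2]
      exact Iff.rfl
    · rw [(canon_spec hN).2]
  have hfil := hdata.filter hD2 (fun i x => h2 α hα2 (i, x))
  refine mem_fex_of_mem (genF j (canon α N) R') (down_fand (down_IsFilterN _ _)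
    (down_fall fun _ => down_fex _)) ?_
  simpa only [IsFilterN, hRe, hDe] using hfil

end Pool.Agent.H625.FMA
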