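import Pool.Agent.H625.FMA.Count

/-!
# Measurable cardinals
-/

set_option autoImplicit false

namespace Pool.Agent.H625.FMA

open Classical Cardinal

attribute [-instance] LinearOrder.toDecidableEq

/-- `U` is a nonprincipal `#K`-complete ultrafilter on the uncountable set `K` -/
structure Meas {K : Type} (U : Ultrafilter K) : Prop where
  unc : ℵ₀ < #K
  np : ∀ x, {x} ∉ U
  complete : ∀ (ι : Type) (f : ι → Set K), #ι < #K → (∀ i, f i ∈ U) → (⋂ i, f i) ∈ U

section

variable {K : Type} {U : Ultrafilter K} (h : Meas U)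

include h

theorem Meas.small {A : Set K} (hA : #A < #K) : Aᶜ ∈ U := by
  have h1 := h.complete A (fun x => {x.1}ᶜ) hA fun x =>
    Ultrafilter.compl_mem_iff_notMem.2 (h.np x.1)
  refine Filter.mem_of_superset h1 ?_
  intro x hx hxA
  exact (Set.mem_iInter.1 hx ⟨x, hxA⟩) rfl

theorem Meas.regLike : RegLike #K := by
  intro ι Z X hι hX
  by_contra hcon
  rw [not_lt] at hcon
  obtain ⟨e⟩ := hcon
  have h1 : ∀ i, {x : K | (e x).1 ∈ X i}ᶜ ∈ U := by
    intro i
    apply h.small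
    refine lt_of_le_of_lt ?_ (hX i)
    refine mk_le_of_injective (f := fun x => (⟨(e x.1).1, x.2⟩ : X i)) ?_
    intro x y hxy
    have h1 : (⟨(e x.1).1, x.2⟩ : X i) = ⟨(e y.1).1, y.2⟩ := hxy
    have h2 : (e x.1).1 = (e y.1).1 := (Subtype.mk.injEq _ _ _ _).mp h1
    exact Subtype.ext (e.injective (Subtype.ext h2))
  have h2 := h.complete ι _ hι h1
  have h3 : (⋂ i, {x : K | (e x).1 ∈ X i}ᶜ) = ∅ := by
    rw [Set.eq_empty_iff_forall_notMem]
    intro x hx
    obtain ⟨i, hi⟩ := Set.mem_iUnion.1 (e x).2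
    exact (Set.mem_iInter.1 hx i) hi
  rw [h3] at h2
  exact Ultrafilter.empty_notMem h2

theorem Meas.strongLimit : ∀ μ < #K, (2 : Cardinal.{0}) ^ μ < #K := by
  intro μ hμ
  by_contra hcon
  rw [not_lt] at hcon
  have h1 : #K ≤ #(Set μ.out) := by
    rw [mk_set, mk_out]
    exact hcon
  obtain ⟨e⟩ := h1
  let A : μ.out → Set K := fun i => if {x | i ∈ e x} ∈ U then {x | i ∈ e x} else {x | i ∈ e x}ᶜ
  have hA : ∀ i, A i ∈ U := by
    intro i
    by_cases hi : {x | i ∈ e x} ∈ U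
    · simp only [A, if_pos hi]
      exact hi
    · simp only [A, if_neg hi]
      exact Ultrafilter.compl_mem_iff_notMem.2 hi
  have h2 := h.complete _ A (by rwa [mk_out]) hA
  have h3 : ∀ x ∈ ⋂ i, A i, ∀ y ∈ ⋂ i, A i, x = y := by
    intro x hx y hy
    apply e.injective
    ext i
    have hx' := Set.mem_iInter.1 hx i
    have hy' := Set.mem_iInter.1 hy i
    by_cases hi : {x | i ∈ e x} ∈ U
    · simp only [A, if_pos hi] at hx' hy'
      exact ⟨fun _ => hy', fun _ => hx'⟩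
    · simp only [A, if_neg hi] at hx' hy'
      exact ⟨fun h => absurd h hx', fun h => absurd h hy'⟩
  obtain ⟨x, hx⟩ := Ultrafilter.nonempty_of_mem h2
  refine h.np x (Filter.mem_of_superset h2 ?_)
  intro y hy
  exact h3 y hy x hx

end

/-- the well-ordered set of type `κ` -/
abbrev WT (κ : Cardinal.{0}) : Type := κ.ord.ToType

theorem mk_WT (κ : Cardinal.{0}) : #(WT κ) = κ := mk_ord_toType κ

theorem mk_Iio_WT {κ : Cardinal.{0}} (α : WT κ) : #(Set.Iio α) < κ := by
  have := Cardinal.mk_Iio_toType_ord_lt α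
  exact this

theorem bdd_WT {κ : Cardinal.{0}} (hκ : ℵ₀ < κ) (hreg : RegLike κ) : Bdd (WT κ) := by
  intro L hL
  rw [mk_WT] at hL
  by_contra hcon
  push Not at hcon
  have h1 : (Set.univ : Set (WT κ)) ⊆ ⋃ β : L, insert β.1 (Set.Iio β.1) := by
    intro α _
    obtain ⟨β, hβ, h2⟩ := hcon α
    refine Set.mem_iUnion.2 ⟨⟨β, hβ⟩, ?_⟩
    rcases h2.lt_or_eq with h3 | h3
    · exact Or.inr h3
    · exact Or.inl h3
  have h2 : #(⋃ β : L, insert β.1 (Set.Iio β.1)) < κ := by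
    refine hreg _ _ _ hL fun β => ?_
    refine (mk_insert_le).trans_lt ?_
    exact add_lt_of_lt hκ.le (mk_Iio_WT β.1) (one_lt_aleph0.trans hκ)
  have h3 := (Cardinal.mk_le_mk_of_subset h1).trans_lt h2
  rw [Cardinal.mk_univ, mk_WT] at h3
  exact lt_irrefl _ h3

theorem pow_aleph0 {κ : Cardinal.{0}} (hκ : ℵ₀ < κ) (hreg : RegLike κ)
    (hlim : ∀ μ < κ, (2 : Cardinal.{0}) ^ μ < κ) : κ ^ (ℵ₀ : Cardinal.{0}) = κ := by
  apply le_antisymm
  · have h1 : #(ℕ → WT κ) = κ ^ (ℵ₀ : Cardinal.{0}) := by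
      simp [mk_pi]
    rw [← h1]
    have h2 : (Set.univ : Set (ℕ → WT κ)) ⊆
        ⋃ α : WT κ, Set.range fun (g : ℕ → Set.Iio α) n => (g n).1 := by
      intro f _
      obtain ⟨α, hα⟩ := bdd_WT hκ hreg (Set.range f) (by
        rw [mk_WT]
        exact (mk_range_le.trans (by rw [mk_nat])).trans_lt hκ)
      exact Set.mem_iUnion.2 ⟨α, fun n => ⟨f n, hα _ ⟨n, rfl⟩⟩, rfl⟩
    rw [← mk_univ]
    refine (mk_le_mk_of_subset h2).trans ((mk_iUnion_le _).trans ?_)
    calc #(WT κ) * _ ≤ κ * κ := by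
          apply mul_le_mul' (mk_WT κ).le
          apply ciSup_le'
          intro α
          refine mk_range_le.trans ?_
          have h3 : #(ℕ → Set.Iio α) = #(Set.Iio α) ^ (ℵ₀ : Cardinal.{0}) := by
            simp [mk_pi]
          rw [h3]
          calc #(Set.Iio α) ^ (ℵ₀ : Cardinal.{0})
              ≤ (2 ^ #(Set.Iio α)) ^ (ℵ₀ : Cardinal.{0}) := power_le_power_right (cantor _).le
            _ = 2 ^ (#(Set.Iio α) * ℵ₀) := by rw [power_mul]
            _ ≤ κ := (hlim _ (mul_lt_of_lt hκ.le (mk_Iio_WT α) hκ)).le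
      _ = κ := mul_eq_self hκ.le
  · exact self_le_power κ one_le_aleph0

/-- The forcing: for a measurable cardinal `κ` the iteration of length `κ` preserves all
cardinals, forces Martin's axiom for all sets of size less than `κ`, and forces the continuum to
be at most `κ`. -/
theorem forces {κ : Cardinal.{0}} (hκ : ℵ₀ < κ) (hreg : RegLike κ)
    (hlim : ∀ μ < κ, (2 : Cardinal.{0}) ^ μ < κ) (p : PP (WT κ)) :
    (∀ Y : Type, Nonempty Y → #Y < κ → p ∈ Pool.Agent.W684.FM.MartinHolds (PP (WT κ)) Y) ∧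
      p ∈ Pool.Agent.Helper669.Forcing.ContinuumLe (PP (WT κ)) (WT κ) := by
  refine ⟨fun Y hY hY' => martinHolds (bdd_WT hκ hreg) (by rwa [mk_WT]) (by rwa [mk_WT]) p, ?_⟩
  refine continuumLe pccc (by rw [mk_WT]; exact hκ.le)
    (by rw [mk_WT]; exact pow_aleph0 hκ hreg hlim) ?_ p
  exact mk_PP_le (by rwa [mk_WT]) (by rwa [mk_WT]) (by rwa [mk_WT]) fun α => by
    rw [mk_WT]
    exact mk_Iio_WT α

end Pool.Agent.H625.FMA
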